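import Mathlib
import Pool.Agent.W536.XI.Stm

/-!
Project XI, task MOMB: quadruples with `m m' = n n'`.
-/

set_option autoImplicit false

open Finset

namespace W374.XI.MomB

open W536.XI

/-- structure of the solutions of `m m' = n n'` -/
lemma quadr {m n m' n' : ℕ} (hm : 1 ≤ m) (hm' : 1 ≤ m') (h : m * m' = n * n') :
    m = Nat.gcd m n * (m / Nat.gcd m n) ∧ n = Nat.gcd m n * (n / Nat.gcd m n) ∧
    m' = Nat.gcd m' n' * (n / Nat.gcd m n) ∧ n' = Nat.gcd m' n' * (m / Nat.gcd m n) ∧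
    Nat.Coprime (m / Nat.gcd m n) (n / Nat.gcd m n) := by
  have hg : 0 < Nat.gcd m n := Nat.gcd_pos_of_pos_left _ hm
  have e1 : m = Nat.gcd m n * (m / Nat.gcd m n) := (Nat.mul_div_cancel' (Nat.gcd_dvd_left m n)).symm
  have e2 : n = Nat.gcd m n * (n / Nat.gcd m n) := (Nat.mul_div_cancel' (Nat.gcd_dvd_right m n)).symm
  have hc := Nat.coprime_div_gcd_div_gcd hg
  set g := Nat.gcd m n with hgdef
  set p := m / g with hp
  set q := n / g with hq
  have h3 : p * m' = q * n' := by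
    have : g * (p * m') = g * (q * n') := by
      calc g * (p * m') = (g * p) * m' := by ring
        _ = (g * q) * n' := by rw [← e1, ← e2, h]
        _ = g * (q * n') := by ring
    exact Nat.eq_of_mul_eq_mul_left hg this
  have hdvd : q ∣ m' := hc.symm.dvd_of_dvd_mul_left (Dvd.intro _ h3.symm)
  obtain ⟨k, hk⟩ := hdvd
  have hq0 : 0 < q := by
    rcases Nat.eq_zero_or_pos q with h0 | h0
    · rw [h0, zero_mul] at hk; omega
    · exact h0
  have hn' : n' = p * k := by
    have : q * n' = q * (p * k) := by rw [← h3, hk]; ring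
    exact Nat.eq_of_mul_eq_mul_left hq0 this
  have hgk : Nat.gcd m' n' = k := by
    rw [hk, hn', Nat.gcd_mul_right, hc.symm.gcd_eq_one, one_mul]
  refine ⟨e1, e2, ?_, ?_, hc⟩
  · rw [hgk, hk]; ring
  · rw [hgk, hn']; ring

/-- the reparametrisation -/
def im (x : (ℕ × ℕ) × (ℕ × ℕ)) : (ℕ × ℕ) × (ℕ × ℕ) :=
  ((Nat.gcd x.1.1 x.1.2, Nat.gcd x.2.1 x.2.2),
    (x.1.1 / Nat.gcd x.1.1 x.1.2, x.1.2 / Nat.gcd x.1.1 x.1.2))

theorem momb : S_MOMB := by
  intro M a r ha hr
  set I := Icc 1 M with hI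
  set T := (I ×ˢ I) ×ˢ (I ×ˢ I) with hT
  have hmem : ∀ x : (ℕ × ℕ) × (ℕ × ℕ), x ∈ T ↔
      ((1 ≤ x.1.1 ∧ x.1.1 ≤ M) ∧ (1 ≤ x.1.2 ∧ x.1.2 ≤ M)) ∧
        ((1 ≤ x.2.1 ∧ x.2.1 ≤ M) ∧ (1 ≤ x.2.2 ∧ x.2.2 ≤ M)) := by
    intro x
    rw [hT, hI]
    simp only [mem_product, mem_Icc]
  have e1 : quad M a r = ∑ x ∈ T.filter (fun x => x.1.1 * x.2.1 = x.1.2 * x.2.2),
      a x.1.1 * a x.1.2 * a x.2.1 * a x.2.2 * kk r (Real.log x.1.1 - Real.log x.1.2) ^ 2 := by
    rw [sum_filter, hT, sum_product, sum_product]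
    unfold quad
    refine sum_congr rfl fun m _ => sum_congr rfl fun n _ => ?_
    rw [sum_product]
  have hinj : Set.InjOn im ((T.filter (fun x => x.1.1 * x.2.1 = x.1.2 * x.2.2) :
      Finset _) : Set ((ℕ × ℕ) × (ℕ × ℕ))) := by
    rintro ⟨⟨m, n⟩, ⟨m', n'⟩⟩ hx ⟨⟨k, l⟩, ⟨k', l'⟩⟩ hy hxy
    simp only [coe_filter, Set.mem_ofPred_eq, hmem] at hx hy
    obtain ⟨f1, f2, f3, f4, -⟩ := quadr hx.1.1.1.1 hx.1.2.1.1 hx.2
    obtain ⟨g1, g2, g3, g4, -⟩ := quadr hy.1.1.1.1 hy.1.2.1.1 hy.2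
    simp only [im, Prod.mk.injEq] at hxy
    obtain ⟨⟨h1, h2⟩, h3, h4⟩ := hxy
    simp only [Prod.mk.injEq]
    refine ⟨⟨?_, ?_⟩, ?_, ?_⟩
    · calc m = Nat.gcd m n * (m / Nat.gcd m n) := f1
        _ = Nat.gcd k l * (k / Nat.gcd k l) := by rw [h3, h1]
        _ = k := g1.symm
    · calc n = Nat.gcd m n * (n / Nat.gcd m n) := f2
        _ = Nat.gcd k l * (l / Nat.gcd k l) := by rw [h4, h1]
        _ = l := g2.symm
    · calc m' = Nat.gcd m' n' * (n / Nat.gcd m n) := f3
        _ = Nat.gcd k' l' * (l / Nat.gcd k l) := by rw [h4, h2]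
        _ = k' := g3.symm
    · calc n' = Nat.gcd m' n' * (m / Nat.gcd m n) := f4
        _ = Nat.gcd k' l' * (k / Nat.gcd k l) := by rw [h3, h2]
        _ = l' := g4.symm
  set w : (ℕ × ℕ) × (ℕ × ℕ) → ℝ := fun y =>
    if Nat.Coprime y.2.1 y.2.2 then a (y.1.1 * y.2.1) * a (y.1.1 * y.2.2) *
      (a (y.1.2 * y.2.1) * a (y.1.2 * y.2.2)) * kk r (Real.log y.2.1 - Real.log y.2.2) ^ 2
    else 0 with hw
  have hw0 : ∀ y, 0 ≤ w y := by
    intro y
    rw [hw]
    simp only
    split_ifs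
    · have h1 := ha (y.1.1 * y.2.1)
      have h2 := ha (y.1.1 * y.2.2)
      have h3 := ha (y.1.2 * y.2.1)
      have h4 := ha (y.1.2 * y.2.2)
      positivity
    · exact le_rfl
  have e2 : quad M a r ≤ ∑ y ∈ T, w y := by
    rw [e1]
    calc _ = ∑ x ∈ T.filter (fun x => x.1.1 * x.2.1 = x.1.2 * x.2.2), w (im x) := by
          refine sum_congr rfl ?_
          rintro ⟨⟨m, n⟩, ⟨m', n'⟩⟩ hx
          rw [mem_filter, hmem] at hx
          simp only at hx
          obtain ⟨f1, f2, f3, f4, f5⟩ := quadr hx.1.1.1.1 hx.1.2.1.1 hx.2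
          have hg : 0 < Nat.gcd m n := Nat.gcd_pos_of_pos_left _ hx.1.1.1.1
          have hp : 0 < m / Nat.gcd m n := by
            rcases Nat.eq_zero_or_pos (m / Nat.gcd m n) with h0 | h0
            · rw [h0, mul_zero] at f1; omega
            · exact h0
          have hq : 0 < n / Nat.gcd m n := by
            rcases Nat.eq_zero_or_pos (n / Nat.gcd m n) with h0 | h0
            · rw [h0, mul_zero] at f2; omega
            · exact h0
          simp only [hw, im]
          rw [if_pos f5, ← f1, ← f2, ← f3, ← f4]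
          have hlog : Real.log (m : ℝ) - Real.log (n : ℝ) =
              Real.log ((m / Nat.gcd m n : ℕ) : ℝ) - Real.log ((n / Nat.gcd m n : ℕ) : ℝ) := by
            have l1 : Real.log (m : ℝ) = Real.log (Nat.gcd m n : ℝ) +
                Real.log ((m / Nat.gcd m n : ℕ) : ℝ) := by
              conv_lhs => rw [f1]
              rw [Nat.cast_mul, Real.log_mul (by positivity) (by positivity)]
            have l2 : Real.log (n : ℝ) = Real.log (Nat.gcd m n : ℝ) +
                Real.log ((n / Nat.gcd m n : ℕ) : ℝ) := by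
              conv_lhs => rw [f2]
              rw [Nat.cast_mul, Real.log_mul (by positivity) (by positivity)]
            rw [l1, l2]; ring
          rw [hlog]
          ring
      _ = ∑ y ∈ (T.filter (fun x => x.1.1 * x.2.1 = x.1.2 * x.2.2)).image im, w y :=
          (sum_image hinj).symm
      _ ≤ ∑ y ∈ T, w y := by
          refine sum_le_sum_of_subset_of_nonneg ?_ fun y _ _ => hw0 y
          intro y hy
          obtain ⟨⟨⟨m, n⟩, ⟨m', n'⟩⟩, hx, rfl⟩ := mem_image.1 hy
          rw [mem_filter, hmem] at hx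
          simp only at hx
          rw [hmem]
          simp only [im]
          have g1 : 0 < Nat.gcd m n := Nat.gcd_pos_of_pos_left _ hx.1.1.1.1
          have g2 : 0 < Nat.gcd m' n' := Nat.gcd_pos_of_pos_left _ hx.1.2.1.1
          have g3 : Nat.gcd m n ≤ m := Nat.gcd_le_left _ hx.1.1.1.1
          have g4 : Nat.gcd m' n' ≤ m' := Nat.gcd_le_left _ hx.1.2.1.1
          have g5 : 0 < m / Nat.gcd m n := Nat.div_pos g3 g1
          have g6 : 0 < n / Nat.gcd m n := Nat.div_pos (Nat.gcd_le_right _ hx.1.1.2.1) g1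
          have g7 : m / Nat.gcd m n ≤ m := Nat.div_le_self _ _
          have g8 : n / Nat.gcd m n ≤ n := Nat.div_le_self _ _
          omega
  set W : ℕ → ℕ → ℝ := fun p q =>
    kk r (Real.log p - Real.log q) ^ 2 * (∑ g ∈ I, a (g * p) * a (g * q)) ^ 2 with hW
  have hW0 : ∀ p q, 0 ≤ W p q := fun p q => by rw [hW]; positivity
  have e3 : ∑ y ∈ T, w y = ∑ p ∈ I, ∑ q ∈ I, if Nat.Coprime p q then W p q else 0 := by
    rw [hT, sum_product_right, sum_product]
    refine sum_congr rfl fun p _ => sum_congr rfl fun q _ => ?_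
    rw [sum_product]
    simp only [hw, hW]
    by_cases hc : Nat.Coprime p q
    · simp only [if_pos hc]
      rw [sq (∑ g ∈ I, a (g * p) * a (g * q)), sum_mul_sum, mul_sum]
      refine sum_congr rfl fun g _ => ?_
      rw [mul_sum]
      refine sum_congr rfl fun g' _ => ?_
      ring
    · simp only [if_neg hc, sum_const_zero]
  have e4 : ∀ p ∈ I, ∀ q ∈ I, (if Nat.Coprime p q then W p q else 0) ≤
      (if p = 1 then (if q = 1 then W 1 1 else 0) else 0) + (if p = q then 0 else W p q) := by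
    intro p _ q _
    by_cases hpq : p = q
    · subst hpq
      by_cases hc : Nat.Coprime p p
      · have hp1 : p = 1 := (Nat.coprime_self p).1 hc
        subst hp1
        simp
      · rw [if_neg hc, if_pos rfl]
        split_ifs
        · simpa using hW0 1 1
        · simp
    · rw [if_neg hpq]
      have h1 : (if Nat.Coprime p q then W p q else 0) ≤ W p q := by
        split_ifs
        · exact le_rfl
        · exact hW0 p q
      have h2 : 0 ≤ (if p = 1 then (if q = 1 then W 1 1 else 0) else 0) := by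
        split_ifs
        · exact hW0 1 1
        · exact le_rfl
        · exact le_rfl
      linarith
  have e5 : ∑ p ∈ I, ∑ q ∈ I, (if p = 1 then (if q = 1 then W 1 1 else 0) else 0) ≤ W 1 1 := by
    by_cases h1 : 1 ∈ I
    · have : ∀ p ∈ I, ∑ q ∈ I, (if p = 1 then (if q = 1 then W 1 1 else 0) else 0) =
          if p = 1 then W 1 1 else 0 := by
        intro p _
        by_cases hp : p = 1
        · simp only [if_pos hp]
          rw [sum_ite_eq' I 1, if_pos h1]
        · simp only [if_neg hp, sum_const_zero]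
      rw [sum_congr rfl this, sum_ite_eq' I 1, if_pos h1]
    · have : I = ∅ := by
        rw [hI]
        rw [hI, mem_Icc] at h1
        exact Icc_eq_empty (by omega)
      rw [this]
      simpa using hW0 1 1
  have e6 : W 1 1 = (2 * r) ^ 2 * (∑ g ∈ I, a g ^ 2) ^ 2 := by
    rw [hW]
    simp only [kk]
    rw [if_pos (sub_self _)]
    congr 2
    refine sum_congr rfl fun g _ => ?_
    rw [mul_one, sq]
  calc quad M a r ≤ ∑ y ∈ T, w y := e2
    _ = ∑ p ∈ I, ∑ q ∈ I, if Nat.Coprime p q then W p q else 0 := e3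
    _ ≤ ∑ p ∈ I, ∑ q ∈ I, ((if p = 1 then (if q = 1 then W 1 1 else 0) else 0) +
          (if p = q then 0 else W p q)) :=
        sum_le_sum fun p hp => sum_le_sum fun q hq => e4 p hp q hq
    _ = ∑ p ∈ I, ∑ q ∈ I, (if p = 1 then (if q = 1 then W 1 1 else 0) else 0) +
          ∑ p ∈ I, ∑ q ∈ I, (if p = q then 0 else W p q) := by
        simp only [sum_add_distrib]
    _ ≤ (2 * r) ^ 2 * (∑ g ∈ I, a g ^ 2) ^ 2 + ∑ p ∈ I, ∑ q ∈ I, (if p = q then 0 else W p q) := by
        rw [← e6]; linarith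

end W374.XI.MomB
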