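import Mathlib
import Pool.Agent.W536.XI.Stm

/-!
Project XI, task MOMD: the kernel sum.
-/

set_option autoImplicit false

open Finset

namespace W374.XI.MomD

open W536.XI

lemma min_sq {X Y : ℝ} (hX : 0 < X) (hY : 0 < Y) {t : ℝ} (ht : 1 ≤ t) :
    min X (Y / t) ^ 2 ≤ 4 * X * Y ^ 2 / (Y + (t - 1) * X) - 4 * X * Y ^ 2 / (Y + t * X) := by
  have ht0 : 0 < t := by linarith
  have h1 : min X (Y / t) ≤ 2 * X * Y / (Y + t * X) := by
    have hden : 0 < Y + t * X := by positivity
    rw [le_div_iff₀ hden]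
    rcases le_total (t * X) Y with h | h
    · calc min X (Y / t) * (Y + t * X) ≤ X * (Y + Y) := by
            refine mul_le_mul (min_le_left _ _) (by linarith) hden.le hX.le
        _ = 2 * X * Y := by ring
    · calc min X (Y / t) * (Y + t * X) ≤ (Y / t) * (t * X + t * X) := by
            refine mul_le_mul (min_le_right _ _) (by linarith) hden.le (by positivity)
        _ = 2 * X * Y := by field_simp; ring
  have h0 : 0 ≤ min X (Y / t) := le_min hX.le (by positivity)
  have hd1 : 0 < Y + (t - 1) * X := by nlinarith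
  have hd2 : 0 < Y + t * X := by positivity
  calc min X (Y / t) ^ 2 ≤ (2 * X * Y / (Y + t * X)) ^ 2 := pow_le_pow_left₀ h0 h1 2
    _ = 4 * X * Y ^ 2 * (X / ((Y + t * X) * (Y + t * X))) := by field_simp; ring
    _ ≤ 4 * X * Y ^ 2 * (X / ((Y + (t - 1) * X) * (Y + t * X))) := by
        refine mul_le_mul_of_nonneg_left ?_ (by positivity)
        refine div_le_div_of_nonneg_left hX.le (by positivity) ?_
        refine mul_le_mul_of_nonneg_right ?_ hd2.le
        nlinarith
    _ = _ := by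
        rw [div_sub_div _ _ hd1.ne' hd2.ne', mul_div_assoc']
        congr 1
        ring

/-- the bound for one pair -/
lemma pair_le {r : ℝ} (hr : 0 < r) {p q : ℕ} (hp : 1 ≤ p) (hpq : p < q) :
    kk r (Real.log p - Real.log q) ^ 2 *
      (Real.exp (-(1 / 2) * (Real.log p - Real.log q) ^ 2) / Real.sqrt (p * q)) ^ 2 ≤
    2 / (q : ℝ) ^ 2 * min (2 * r) (2 * q / ((q : ℝ) - p)) ^ 2 := by
  have hp0 : (0 : ℝ) < p := by exact_mod_cast hp
  have hpq' : (p : ℝ) < q := by exact_mod_cast hpq
  have hq0 : (0 : ℝ) < q := hp0.trans hpq'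
  have hlog : Real.log p < Real.log q := Real.log_lt_log hp0 hpq'
  set x := Real.log q - Real.log p with hx
  have hx0 : 0 < x := by rw [hx]; linarith
  have e1 : Real.log p - Real.log q = -x := by rw [hx]; ring
  rw [e1]
  have hxge : ((q : ℝ) - p) / q ≤ x := by
    have h1 := Real.one_sub_inv_le_log_of_pos (div_pos hq0 hp0)
    rw [Real.log_div hq0.ne' hp0.ne', inv_div] at h1
    rw [hx]
    calc ((q : ℝ) - p) / q = 1 - p / q := by field_simp
      _ ≤ _ := h1
  have hk : kk r (-x) ≤ min (2 * r) (2 * q / ((q : ℝ) - p)) := by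
    unfold kk
    rw [if_neg (by linarith : -x ≠ 0) ]
    rw [abs_neg, abs_of_pos hx0]
    refine min_le_min le_rfl ?_
    rw [div_le_div_iff₀ hx0 (by linarith)]
    rw [div_le_iff₀ hq0] at hxge
    linarith
  have hk0 : 0 ≤ kk r (-x) := by
    unfold kk
    split_ifs
    · positivity
    · positivity
  have hexp : (Real.exp (-(1 / 2) * (-x) ^ 2) / Real.sqrt (p * q)) ^ 2 ≤ 2 / (q : ℝ) ^ 2 := by
    rw [div_pow, Real.sq_sqrt (by positivity), ← Real.exp_nat_mul]
    have h1 : ((2 : ℕ) : ℝ) * (-(1 / 2) * (-x) ^ 2) ≤ 1 / 4 + -x := by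
      push_cast
      nlinarith [sq_nonneg (x - 1 / 2)]
    have h2 : Real.exp (1 / 4 + -x) ≤ 2 * (p / q) := by
      rw [Real.exp_add]
      have h3 : Real.exp (-x) = p / q := by
        rw [hx, neg_sub, Real.exp_sub, Real.exp_log hp0, Real.exp_log hq0]
      rw [h3]
      refine mul_le_mul_of_nonneg_right ?_ (by positivity)
      calc Real.exp (1 / 4) ≤ Real.exp (1 / 2) := Real.exp_le_exp.2 (by norm_num)
        _ ≤ 2 := by
          have h4 : Real.exp (1 / 2) ^ 2 = Real.exp 1 := by
            rw [← Real.exp_nat_mul]; norm_num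
          have h5 := Real.exp_one_lt_d9
          nlinarith [Real.exp_pos (1 / 2 : ℝ)]
    have h3 : Real.exp (((2 : ℕ) : ℝ) * (-(1 / 2) * (-x) ^ 2)) ≤ 2 * (p / q) :=
      (Real.exp_le_exp.2 h1).trans h2
    rw [div_le_iff₀ (by positivity)]
    calc _ ≤ 2 * ((p : ℝ) / q) := h3
      _ = 2 / (q : ℝ) ^ 2 * (p * q) := by field_simp
  calc _ ≤ min (2 * r) (2 * q / ((q : ℝ) - p)) ^ 2 * (2 / (q : ℝ) ^ 2) := by
        refine mul_le_mul (pow_le_pow_left₀ hk0 hk 2) hexp (by positivity) (by positivity)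
    _ = _ := by ring

/-- the bound of the sum over one variable -/
lemma row_le {r : ℝ} (hr : 0 < r) {q : ℕ} (hq : 1 ≤ q) :
    ∑ p ∈ range q, (2 / (q : ℝ) ^ 2 * min (2 * r) (2 * q / ((q : ℝ) - p)) ^ 2) ≤
      32 * r * (q : ℝ)⁻¹ := by
  have hq0 : (0 : ℝ) < q := by exact_mod_cast hq
  set h : ℕ → ℝ := fun p => 4 * (2 * r) * (2 * q) ^ 2 / (2 * q + ((q : ℝ) - p) * (2 * r)) with hh
  have h1 : ∀ p ∈ range q, min (2 * r) (2 * q / ((q : ℝ) - p)) ^ 2 ≤ h (p + 1) - h p := by
    intro p hp
    have hpq : (p : ℝ) + 1 ≤ q := by exact_mod_cast mem_range.1 hp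
    have := min_sq (X := 2 * r) (Y := 2 * q) (by positivity) (by positivity)
      (t := (q : ℝ) - p) (by linarith)
    rw [hh]
    simp only
    push_cast
    have e : (q : ℝ) - (p + 1) = (q : ℝ) - p - 1 := by ring
    rw [e]
    exact this
  calc _ = 2 / (q : ℝ) ^ 2 * ∑ p ∈ range q, min (2 * r) (2 * q / ((q : ℝ) - p)) ^ 2 := by
        rw [mul_sum]
    _ ≤ 2 / (q : ℝ) ^ 2 * ∑ p ∈ range q, (h (p + 1) - h p) :=
        mul_le_mul_of_nonneg_left (sum_le_sum h1) (by positivity)
    _ = 2 / (q : ℝ) ^ 2 * (h q - h 0) := by rw [sum_range_sub]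
    _ ≤ 2 / (q : ℝ) ^ 2 * (4 * (2 * r) * (2 * q)) := by
        refine mul_le_mul_of_nonneg_left ?_ (by positivity)
        have h2 : h q = 4 * (2 * r) * (2 * q) := by
          rw [hh]; simp only [sub_self, zero_mul, add_zero]; field_simp
        have h3 : 0 ≤ h 0 := by
          rw [hh]; simp only [Nat.cast_zero, sub_zero]; positivity
        linarith
    _ = _ := by field_simp; ring

theorem momd : S_MOMD := by
  refine ⟨64, fun M r hM hr => ?_⟩
  have hr0 : 0 < r := by linarith
  set I := Icc 1 M with hI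
  set G : ℕ → ℕ → ℝ := fun p q =>
    if p < q then 2 / (q : ℝ) ^ 2 * min (2 * r) (2 * q / ((q : ℝ) - p)) ^ 2 else 0 with hG
  have h1 : ∀ p ∈ I, ∀ q ∈ I, (if p = q then 0 else
      kk r (Real.log p - Real.log q) ^ 2 *
        (Real.exp (-(1 / 2) * (Real.log p - Real.log q) ^ 2) / Real.sqrt (p * q)) ^ 2) ≤
      G p q + G q p := by
    intro p hp q hq
    rw [hI, mem_Icc] at hp hq
    rw [hG]
    simp only
    rcases lt_trichotomy p q with h | h | h
    · rw [if_neg (by omega), if_pos h, if_neg (by omega), add_zero]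
      exact pair_le hr0 hp.1 h
    · rw [if_pos h, if_neg (by omega), if_neg (by omega), add_zero]
    · rw [if_neg (by omega), if_neg (by omega), if_pos h, zero_add]
      have := pair_le hr0 hq.1 h
      have e1 : Real.log p - Real.log q = -(Real.log q - Real.log p) := by ring
      have e2 : kk r (Real.log p - Real.log q) = kk r (Real.log q - Real.log p) := by
        rw [e1]; unfold kk
        simp only [neg_eq_zero, abs_neg]
      have e3 : (Real.log p - Real.log q) ^ 2 = (Real.log q - Real.log p) ^ 2 := by ring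
      rw [e2, e3, mul_comm (p : ℝ) q]
      exact this
  have h2 : ∑ p ∈ I, ∑ q ∈ I, G p q ≤ 32 * r * (1 + Real.log M) := by
    rw [sum_comm]
    calc _ ≤ ∑ q ∈ I, 32 * r * (q : ℝ)⁻¹ := by
          refine sum_le_sum fun q hq => ?_
          rw [hI, mem_Icc] at hq
          refine le_trans ?_ (row_le hr0 hq.1)
          calc ∑ p ∈ I, G p q = ∑ p ∈ I.filter (fun p => p < q),
                (2 / (q : ℝ) ^ 2 * min (2 * r) (2 * q / ((q : ℝ) - p)) ^ 2) := by
                rw [sum_filter]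
            _ ≤ _ := by
                refine sum_le_sum_of_subset_of_nonneg ?_ fun p _ _ => by positivity
                intro p hp
                rw [mem_filter] at hp
                exact mem_range.2 hp.2
      _ = 32 * r * ((harmonic M : ℚ) : ℝ) := by
          rw [← mul_sum, harmonic_eq_sum_Icc]
          push_cast
          rfl
      _ ≤ _ := mul_le_mul_of_nonneg_left (harmonic_le_one_add_log M) (by positivity)
  calc _ ≤ ∑ p ∈ I, ∑ q ∈ I, (G p q + G q p) :=
        sum_le_sum fun p hp => sum_le_sum fun q hq => h1 p hp q hq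
    _ = ∑ p ∈ I, ∑ q ∈ I, G p q + ∑ p ∈ I, ∑ q ∈ I, G q p := by
        simp only [sum_add_distrib]
    _ = ∑ p ∈ I, ∑ q ∈ I, G p q + ∑ p ∈ I, ∑ q ∈ I, G p q := by
        rw [sum_comm (f := fun p q => G q p)]
    _ ≤ 64 * r * (1 + Real.log M) := by linarith

end W374.XI.MomD
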